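import Mathlib

set_option autoImplicit false

namespace Pool.Agent.Results.MP_8dd099_nt.Infinite

open Finset

/-- `KL n` is the sum over all positive divisors `d` of `n` of `d * log (d / (2 * φ d))`. -/
noncomputable def KL (n : ℕ) : ℝ :=
  ∑ d ∈ n.divisors, (d : ℝ) * Real.log ((d : ℝ) / (2 * (Nat.totient d : ℝ)))

/-- A positive integer `n` is deficient if `σ n < 2 n`. -/
def IsDeficient (n : ℕ) : Prop :=
  0 < n ∧ ArithmeticFunction.sigma 1 n < 2 * n

/-- A positive integer `n` is KL-primitive if `KL n ≥ 0` and `KL d < 0` for every positive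
divisor `d` of `n` with `d < n`. -/
def IsKLPrimitive (n : ℕ) : Prop :=
  0 < n ∧ 0 ≤ KL n ∧ ∀ d : ℕ, 0 < d → d ∣ n → d < n → KL d < 0

lemma sum_divisors_mul_prime (f : ℕ → ℝ) {m p : ℕ} (hp : p.Prime) (hmp : m.Coprime p) :
    ∑ d ∈ (m * p).divisors, f d = ∑ d ∈ m.divisors, (f d + f (d * p)) := by
  rw [Nat.divisors_mul, ← Finset.image_mul_product, Finset.sum_image hmp.mul_injOn_divisors,
    Finset.sum_product]
  refine Finset.sum_congr rfl fun d _ => ?_
  rw [hp.sum_divisors]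
  simp [add_comm]

lemma KL_mul_prime {m p : ℕ} (hp : p.Prime) (hmp : m.Coprime p) :
    KL (m * p) = ((p : ℝ) + 1) * KL m
      + (ArithmeticFunction.sigma 1 m : ℝ) * ((p : ℝ) * Real.log ((p : ℝ) / (p - 1))) := by
  unfold KL
  rw [sum_divisors_mul_prime _ hp hmp, ArithmeticFunction.sigma_one_apply, Nat.cast_sum,
    Finset.mul_sum, Finset.sum_mul, ← Finset.sum_add_distrib]
  refine Finset.sum_congr rfl fun d hd => ?_
  have hdm : d ∣ m := Nat.dvd_of_mem_divisors hd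
  have hd0 : 0 < d := Nat.pos_of_mem_divisors hd
  have hcop : d.Coprime p := Nat.Coprime.coprime_dvd_left hdm hmp
  have hphi : (0 : ℝ) < (Nat.totient d : ℝ) := by exact_mod_cast Nat.totient_pos.2 hd0
  have hd0' : (0 : ℝ) < d := by exact_mod_cast hd0
  have hp1 : (1 : ℝ) < p := by exact_mod_cast hp.one_lt
  have hp1' : (0 : ℝ) < (p : ℝ) - 1 := by linarith
  rw [Nat.totient_mul hcop, Nat.totient_prime hp]
  have hcast : ((Nat.totient d * (p - 1) : ℕ) : ℝ) = (Nat.totient d : ℝ) * ((p : ℝ) - 1) := by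
    rw [Nat.cast_mul, Nat.cast_sub hp.one_lt.le, Nat.cast_one]
  rw [hcast, Nat.cast_mul]
  have : (d : ℝ) * p / (2 * ((Nat.totient d : ℝ) * ((p : ℝ) - 1)))
      = ((d : ℝ) / (2 * (Nat.totient d : ℝ))) * ((p : ℝ) / (p - 1)) := by
    field_simp
  rw [this, Real.log_mul (by positivity) (by positivity)]
  ring

lemma KL_two_pow (a : ℕ) : KL (2 ^ a) = -Real.log 2 := by
  unfold KL
  rw [Nat.sum_divisors_prime_pow Nat.prime_two, Finset.sum_range_succ']
  have : ∀ k ∈ Finset.range a, ((2 ^ (k + 1) : ℕ) : ℝ) *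
      Real.log (((2 ^ (k + 1) : ℕ) : ℝ) / (2 * (Nat.totient (2 ^ (k + 1)) : ℝ))) = 0 := by
    intro k _
    rw [Nat.totient_prime_pow_succ Nat.prime_two]
    have : ((2 ^ (k + 1) : ℕ) : ℝ) / (2 * ((2 ^ k * (2 - 1) : ℕ) : ℝ)) = 1 := by
      push_cast
      field_simp
      ring
    rw [this, Real.log_one, mul_zero]
  rw [Finset.sum_eq_zero this]
  simp

lemma sigma_two_pow (a : ℕ) : ArithmeticFunction.sigma 1 (2 ^ a) + 1 = 2 ^ (a + 1) := by
  rw [ArithmeticFunction.sigma_one_apply_prime_pow Nat.prime_two]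
  induction a with
  | zero => simp
  | succ k ih => rw [Finset.sum_range_succ, pow_succ 2 (k + 1)]; omega

lemma sigma_mul_prime {m p : ℕ} (hp : p.Prime) (hmp : m.Coprime p) :
    ArithmeticFunction.sigma 1 (m * p) = ArithmeticFunction.sigma 1 m * (p + 1) := by
  rw [ArithmeticFunction.isMultiplicative_sigma.map_mul_of_coprime hmp]
  congr 1
  rw [ArithmeticFunction.sigma_one_apply, hp.sum_divisors]

lemma one_le_mul_log {p : ℝ} (hp : 1 < p) : 1 ≤ p * Real.log (p / (p - 1)) := by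
  have h1 : 0 < p - 1 := by linarith
  have h0 : 0 < p := by linarith
  have := Real.one_sub_inv_le_log_of_pos (x := p / (p - 1)) (by positivity)
  have h2 : 1 - (p / (p - 1))⁻¹ = 1 / p := by field_simp; ring
  rw [h2] at this
  calc (1 : ℝ) = p * (1 / p) := by field_simp
    _ ≤ _ := by gcongr

lemma exists_primitive_dvd {n : ℕ} (hn : 0 < n) (h : 0 ≤ KL n) :
    ∃ d, d ∣ n ∧ IsKLPrimitive d := by
  classical
  have hex : ∃ d, d ∣ n ∧ 0 ≤ KL d := ⟨n, dvd_rfl, h⟩
  refine ⟨Nat.find hex, (Nat.find_spec hex).1,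
    Nat.pos_of_dvd_of_pos (Nat.find_spec hex).1 hn, (Nat.find_spec hex).2, ?_⟩
  intro e _ he hlt
  have := Nat.find_min hex hlt
  by_contra hcon
  exact this ⟨he.trans (Nat.find_spec hex).1, not_lt.1 hcon⟩

lemma IsDeficient.of_dvd {d n : ℕ} (hn : IsDeficient n) (hd : d ∣ n) : IsDeficient d := by
  have hd0 : 0 < d := Nat.pos_of_dvd_of_pos hd hn.1
  refine ⟨hd0, ?_⟩
  have h1 := Nat.abundancyIndex_le_of_dvd hn.1.ne' hd
  have h2 := hn.2
  rw [ArithmeticFunction.sigma_one_apply] at h2 ⊢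
  unfold Nat.abundancyIndex at h1
  have hn0 : (0 : ℚ) < n := by exact_mod_cast hn.1
  have hd0' : (0 : ℚ) < d := by exact_mod_cast hd0
  have h3 : ((∑ i ∈ n.divisors, i : ℕ) : ℚ) / n < 2 := by
    rw [div_lt_iff₀ hn0]; exact_mod_cast h2
  have h4 := lt_of_le_of_lt h1 h3
  rw [div_lt_iff₀ hd0'] at h4
  exact_mod_cast h4

/-- For every `a ≥ 3` there is a deficient number `2 ^ a * k` with nonnegative `KL`, all of whose
odd prime factors are at least `2 ^ (a + 1)`. -/
lemma exists_good (a : ℕ) (ha : 3 ≤ a) :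
    ∃ k : ℕ, IsDeficient (2 ^ a * k) ∧ 0 ≤ KL (2 ^ a * k) ∧
      ∀ r : ℕ, r.Prime → r ∣ k → 2 ^ (a + 1) ≤ r := by
  obtain ⟨N, hN⟩ : ∃ N, N = ArithmeticFunction.sigma 1 (2 ^ a) := ⟨_, rfl⟩
  have hN1 : N + 1 = 2 ^ (a + 1) := hN ▸ sigma_two_pow a
  have h16 : 16 ≤ 2 ^ (a + 1) := by
    calc 16 = 2 ^ 4 := by norm_num
      _ ≤ 2 ^ (a + 1) := Nat.pow_le_pow_right (by norm_num) (by omega)
  have hN15 : 15 ≤ N := by omega
  obtain ⟨q, hq, hNq, hq2⟩ := Nat.exists_prime_lt_and_le_two_mul N (by omega)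
  have hcop : ∀ r : ℕ, r.Prime → 2 < r → (2 ^ a).Coprime r := fun r hr h2 =>
    Nat.Coprime.pow_left a ((Nat.coprime_primes Nat.prime_two hr).2 h2.ne)
  have hcq : (2 ^ a).Coprime q := hcop q hq (by omega)
  have hsq : ArithmeticFunction.sigma 1 (2 ^ a * q) = N * (q + 1) := by
    rw [sigma_mul_prime hq hcq, hN]
  obtain ⟨δ, hδ⟩ : ∃ δ, q = N + δ := ⟨q - N, by omega⟩
  have hδ1 : 1 ≤ δ := by omega
  have hδN : δ ≤ N := by omega
  have h2m : 2 * (2 ^ a * q) = N * (q + 1) + δ := by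
    have : 2 * (2 ^ a * q) = (N + 1) * q := by rw [hN1]; ring
    rw [this, hδ]; ring
  have hm0 : 0 < 2 ^ a * q := Nat.mul_pos (by positivity) hq.pos
  by_cases hK : 0 ≤ KL (2 ^ a * q)
  · refine ⟨q, ⟨hm0, by rw [hsq]; omega⟩, hK, fun r hr hrq => ?_⟩
    rw [(Nat.prime_dvd_prime_iff_eq hr hq).1 hrq]; omega
  · rw [not_le] at hK
    obtain ⟨s, hs⟩ : ∃ s, s = N * (q + 1) := ⟨_, rfl⟩
    have hsδ : δ * (q + 1) ≤ s := by rw [hs]; exact Nat.mul_le_mul_right _ hδN
    have ht : q + 1 ≤ s / δ := (Nat.le_div_iff_mul_le (by omega)).2 (by rw [mul_comm]; exact hsδ)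
    obtain ⟨p, hp, htp, hp2⟩ := Nat.exists_prime_lt_and_le_two_mul (s / δ) (by omega)
    have hqp : q < p := by omega
    have hcp : (2 ^ a * q).Coprime p :=
      Nat.Coprime.mul_left (hcop p hp (by omega)) ((Nat.coprime_primes hq hp).2 hqp.ne)
    have hlow : s < δ * p := by
      have := Nat.lt_mul_div_succ s (show 0 < δ by omega)
      exact lt_of_lt_of_le this (Nat.mul_le_mul_left _ htp)
    have hup : δ * p ≤ 2 * s := by
      have := Nat.mul_div_le s δ
      calc δ * p ≤ δ * (2 * (s / δ)) := Nat.mul_le_mul_left _ hp2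
        _ = 2 * (δ * (s / δ)) := by ring
        _ ≤ 2 * s := by omega
    refine ⟨q * p, ⟨Nat.mul_pos (by positivity) (Nat.mul_pos hq.pos hp.pos), ?_⟩, ?_, ?_⟩
    · rw [← mul_assoc, sigma_mul_prime hp hcp, hsq, ← mul_assoc, h2m, ← hs]
      nlinarith
    · rw [← mul_assoc, KL_mul_prime hp hcp, hsq, ← hs]
      have hp1 : (1 : ℝ) < p := by exact_mod_cast hp.one_lt
      have hq1 : (1 : ℝ) < q := by exact_mod_cast hq.one_lt
      have hlp := one_le_mul_log hp1
      have hlq := one_le_mul_log hq1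
      have hKq := KL_mul_prime (m := 2 ^ a) hq hcq
      rw [KL_two_pow, ← hN] at hKq
      obtain ⟨K, hKdef⟩ : ∃ K, K = -KL (2 ^ a * q) := ⟨_, rfl⟩
      have hK0 : 0 < K := by linarith
      have hl2 : Real.log 2 < 0.7 := by linarith [Real.log_two_lt_d9]
      have hNr : (15 : ℝ) ≤ N := by exact_mod_cast hN15
      have hδr : (q : ℝ) = N + δ := by exact_mod_cast hδ
      have hδ1r : (1 : ℝ) ≤ δ := by exact_mod_cast hδ1
      have hδNr : (δ : ℝ) ≤ N := by exact_mod_cast hδN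
      have hsδr : (δ : ℝ) * (q + 1) ≤ s := by exact_mod_cast hsδ
      have hupr : (δ : ℝ) * p ≤ 2 * s := by exact_mod_cast hup
      have hKle : K ≤ 0.7 * ((q : ℝ) + 1) - N := by
        rw [hKdef, hKq]; nlinarith
      have hs0 : (0 : ℝ) < s := by nlinarith
      have h2K : 2 * K + 0.7 ≤ δ := by rw [hδr] at hKle; linarith
      have hδK : (δ : ℝ) * K ≤ 0.7 * s := by nlinarith
      have key : (δ : ℝ) * (((p : ℝ) + 1) * K) ≤ δ * s := by nlinarith
      have key2 : ((p : ℝ) + 1) * K ≤ s := le_of_mul_le_mul_left key (by linarith)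
      have : KL (2 ^ a * q) = -K := by linarith
      rw [this]
      nlinarith
    · intro r hr hrq
      rcases (Nat.Prime.dvd_mul hr).1 hrq with h | h
      · rw [(Nat.prime_dvd_prime_iff_eq hr hq).1 h]; omega
      · rw [(Nat.prime_dvd_prime_iff_eq hr hp).1 h]; omega

/-- There are infinitely many positive integers that are both deficient and KL-primitive. -/
theorem result : {n : ℕ | IsDeficient n ∧ IsKLPrimitive n}.Infinite := by
  refine Set.infinite_of_forall_exists_gt fun b => ?_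
  obtain ⟨k, hdef, hK, hk⟩ := exists_good (b + 3) (by omega)
  obtain ⟨d, hd, hprim⟩ := exists_primitive_dvd hdef.1 hK
  refine ⟨d, ⟨hdef.of_dvd hd, hprim⟩, ?_⟩
  by_contra hle
  rw [not_lt] at hle
  have hb : b < 2 ^ (b + 3 + 1) := lt_of_lt_of_le Nat.lt_two_pow_self
    (Nat.pow_le_pow_right (by norm_num) (by omega))
  have hcop : d.Coprime k := by
    apply Nat.coprime_of_dvd
    intro r hr hrd hrk
    have h1 := hk r hr hrk
    have h2 := Nat.le_of_dvd hprim.1 hrd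
    omega
  have hd2 : d ∣ 2 ^ (b + 3) := hcop.dvd_of_dvd_mul_right hd
  obtain ⟨j, -, rfl⟩ := (Nat.dvd_prime_pow Nat.prime_two).1 hd2
  have h0 := hprim.2.1
  rw [KL_two_pow] at h0
  have := Real.log_pos (show (1 : ℝ) < 2 by norm_num)
  linarith

end Pool.Agent.Results.MP_8dd099_nt.Infinite
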